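import Pool.Agent.RCM.Stmts

/-!
Row MON of table rcm: more forbidden colours.
-/

set_option autoImplicit false

namespace Pool.Agent.RCM.H77

open Set

universe u

/-- MON. -/
theorem mon : MonStmt.{u} := by
  intro E K _ _ M N κ P X X' T hX
  have h1 : ∀ T T', Mv M N κ P X' T T' → Mv M N κ P X T T' := by
    rintro T T' ⟨x, y, hy, hx, hxX, h⟩
    exact ⟨x, y, hy, hx, fun hc => hxX (hX hc), h⟩
  have h2 : ∀ T', Rc M N κ P X' T T' → Rc M N κ P X T T' := by
    intro T' h
    exact Relation.ReflTransGen.mono h1 _ _ h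
  refine ⟨h2, ?_, ?_⟩
  · intro e he T' hT'
    exact he T' (h2 T' hT')
  · rintro c ⟨hc, T', hT', hcT⟩
    exact ⟨fun hcX => hc (hX hcX), T', h2 T' hT', hcT⟩

end Pool.Agent.RCM.H77
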