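import Pool.Agent.RCM.StmtsA

/-!
Row RRB of table rca: the rank as a natural number.
-/

set_option autoImplicit false

namespace Pool.Agent.RCM.H77

open Set

universe u

theorem rr_cast {E : Type u} [Finite E] (M : Matroid E) (A : Set E) :
    ((rr M A : ℕ) : ℕ∞) = M.eRk A :=
  ENat.coe_toNat (ne_top_of_le_ne_top A.toFinite.encard_lt_top.ne (M.eRk_le_encard A))

theorem nc_cast {E : Type u} [Finite E] (A : Set E) : ((A.ncard : ℕ) : ℕ∞) = A.encard :=
  A.toFinite.cast_ncard_eq

/-- RRB. -/
theorem rrb : RrbStmt.{u} := by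
  intro E _ M A B
  refine ⟨?_, ?_, ?_, ?_, ?_, ?_⟩
  · intro h
    have h1 := M.eRk_mono h
    rw [← rr_cast, ← rr_cast] at h1
    exact_mod_cast h1
  · have h1 := M.eRk_inter_add_eRk_union_le A B
    rw [← rr_cast, ← rr_cast, ← rr_cast, ← rr_cast] at h1
    exact_mod_cast h1
  · have h1 := M.eRk_le_encard A
    rw [← rr_cast, ← nc_cast] at h1
    exact_mod_cast h1
  · intro h
    have h1 := h.eRk_eq_encard
    rw [← rr_cast, ← nc_cast] at h1
    exact_mod_cast h1
  · have h1 := M.eRk_union_le_eRk_add_encard A B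
    rw [← rr_cast, ← rr_cast, ← nc_cast] at h1
    exact_mod_cast h1
  · intro h
    have h1 : M.eRk (A ∪ B) ≤ M.eRk B := by
      calc M.eRk (A ∪ B) ≤ M.eRk (B ∪ M.closure B) :=
            M.eRk_mono (union_subset (h.trans subset_union_right) subset_union_left)
        _ = M.eRk (B ∪ B) := M.eRk_union_closure_right_eq B B
        _ = M.eRk B := by rw [union_self]
    have h2 : M.eRk (A ∪ B) = M.eRk B := le_antisymm h1 (M.eRk_mono subset_union_right)
    unfold rr
    rw [h2]

end Pool.Agent.RCM.H77
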